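import Pool.Agent.H566W.Ana

/-!
# Partitions of the real line into additive semigroups with analytic equivalence relations

Let `E` be an analytic equivalence relation on `ℝ` whose classes are closed under addition. Then
either `E` has at most three classes or there is a perfect set of pairwise inequivalent elements.
In particular, a partition of `ℝ` into `ω₁` many additive Borel semigroups with an analytic
equivalence relation exists if and only if the continuum hypothesis holds -- so it never exists when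
`𝔠 = ω₂`.

Proof: if all the classes of the restriction of `E` to `(0, ∞)` are meagre, then so is this
restriction (Kuratowski-Ulam), and there is a perfect set of inequivalent elements by the theorem of
Mycielski. Otherwise there is a class `A` such that `A ∩ (0, ∞)` is comeagre in some interval. Then
`A ⊇ A + A` includes an interval and so a half-line `(c, ∞)`. Every class with a positive element
meets this half-line, so that it is `A`, and `A` includes `(0, ∞)`.
-/

set_option autoImplicit false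

open Set Filter Topology MeasureTheory Cardinal

namespace Pool.Agent.Results.MP_be984c_lc.AnalyticSemigroupPartition

open Pool.Agent.H566W (Dn Dn_closed sdiff_Dn analytic_bp meagre_of_sections)

universe u

lemma inter_analytic {A B : Set ℝ} (hA : AnalyticSet A) (hB : AnalyticSet B) :
    AnalyticSet (A ∩ B) := by
  have h : A ∩ B = ⋂ b : Bool, cond b A B := by
    ext x
    simp [Bool.forall_bool, and_comm]
  rw [h]
  exact AnalyticSet.iInter fun b => by cases b <;> assumption

/-- a nonmeagre analytic additive semigroup of positive reals includes a half-line -/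
lemma exists_Ioi {A : Set ℝ} (hA : AnalyticSet A) (hadd : ∀ a ∈ A, ∀ b ∈ A, a + b ∈ A)
    (hpos : A ⊆ Ioi 0) (hm : ¬ IsMeagre A) : ∃ c, Ioi c ⊆ A := by
  have h2 : IsMeagre (Dn A \ A) := by
    rw [AnalyticSet] at hA
    rcases hA with h0 | ⟨f, hf, rfl⟩
    · exact absurd (h0 ▸ IsMeagre.empty) hm
    · exact analytic_bp hf
  have h3 : (interior (Dn A)).Nonempty := by
    by_contra hcon
    apply hm
    have h4 : IsNowhereDense (Dn A) := by
      rw [(Dn_closed A).isNowhereDense_iff]
      exact Set.not_nonempty_iff_eq_empty.1 hcon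
    refine IsMeagre.mono ?_ ((sdiff_Dn A).union h4.isMeagre)
    intro p hp
    by_cases h : p ∈ Dn A
    · exact Or.inr h
    · exact Or.inl ⟨hp, h⟩
  have h5 : (Dn A \ A)ᶜ ∈ residual ℝ := h2
  obtain ⟨x₀, hx₀⟩ := h3
  obtain ⟨x₁, hx₁U, hx₁⟩ := mem_closure_iff.1 (dense_of_mem_residual h5 x₀) _ isOpen_interior hx₀
  have hx₁A : x₁ ∈ A := by
    by_contra hcon
    exact hx₁ ⟨interior_subset hx₁U, hcon⟩
  have hx₁p : 0 < x₁ := hpos hx₁A
  obtain ⟨r, hr, hball⟩ := Metric.isOpen_iff.1 isOpen_interior x₁ hx₁U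
  have hb1 : ∀ z, |z - 2 * x₁| < r → z ∈ A := by
    intro z hz
    have h6 : {t : ℝ | z - t ∈ (Dn A \ A)ᶜ} ∈ residual ℝ := by
      have h7 : IsMeagre ((fun t => z - t) ⁻¹' (Dn A \ A)) :=
        h2.preimage_of_isOpenMap (continuous_const.sub continuous_id)
          (Homeomorph.subLeft z).isOpenMap
      exact h7
    have h8 := dense_of_mem_residual (Filter.inter_mem h5 h6)
    obtain ⟨t, ht, ht1, ht2⟩ := mem_closure_iff.1 (h8 (z / 2)) (Metric.ball (z / 2) (r / 2))
      Metric.isOpen_ball (Metric.mem_ball_self (by linarith))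
    rw [Metric.mem_ball, Real.dist_eq] at ht
    have e1 : |z / 2 - x₁| < r / 2 := by
      have : z / 2 - x₁ = (z - 2 * x₁) / 2 := by ring
      rw [this, abs_div, abs_two]
      linarith
    have e2 : |t - x₁| < r := by
      have : t - x₁ = (t - z / 2) + (z / 2 - x₁) := by ring
      rw [this]
      exact (abs_add_le _ _).trans_lt (by linarith)
    have e3 : |z - t - x₁| < r := by
      have : z - t - x₁ = -(t - z / 2) + (z / 2 - x₁) := by ring
      rw [this]
      refine (abs_add_le _ _).trans_lt ?_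
      rw [abs_neg]
      linarith
    have m1 : t ∈ A := by
      by_contra hcon
      exact ht1 ⟨interior_subset (hball (by rw [Metric.mem_ball, Real.dist_eq]; exact e2)), hcon⟩
    have m2 : z - t ∈ A := by
      by_contra hcon
      exact ht2 ⟨interior_subset (hball (by rw [Metric.mem_ball, Real.dist_eq]; exact e3)), hcon⟩
    have := hadd _ m1 _ m2
    rwa [add_sub_cancel] at this
  have hmul : ∀ n : ℕ, ∀ a ∈ A, (n + 1 : ℝ) * a ∈ A := by
    intro n a ha
    induction n with
    | zero => simpa using ha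
    | succ n ih =>
      have := hadd _ ih _ ha
      convert this using 1
      push_cast
      ring
  set y := 2 * x₁ with hy
  have hy0 : 0 < y := by positivity
  refine ⟨y * (y / r + 2), fun z hz => ?_⟩
  have hz : y * (y / r + 2) < z := hz
  have hyr : 0 < y / r := by positivity
  obtain ⟨n, hn⟩ : ∃ n : ℕ, (n : ℝ) + 1 ≤ z / y ∧ z / y < n + 1 + 1 := by
    have h1 : 1 ≤ z / y := by
      rw [le_div_iff₀ hy0]
      nlinarith
    refine ⟨⌊z / y⌋₊ - 1, ?_⟩
    have h2 : 1 ≤ ⌊z / y⌋₊ := Nat.one_le_floor_iff _ |>.2 h1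
    have h3 := Nat.floor_le (show 0 ≤ z / y by linarith)
    have h4 := Nat.lt_floor_add_one (z / y)
    have h5 : ((⌊z / y⌋₊ - 1 : ℕ) : ℝ) = (⌊z / y⌋₊ : ℝ) - 1 := by
      rw [Nat.cast_sub h2, Nat.cast_one]
    rw [h5]
    constructor <;> linarith
  have hzy : z = (z / y) * y := by field_simp
  have hn1 : (0 : ℝ) < n + 1 := by positivity
  have h9 : z / (n + 1) ∈ A := by
    apply hb1
    have h10 : 0 ≤ z / (n + 1) - y := by
      rw [sub_nonneg, le_div_iff₀ hn1]
      rw [le_div_iff₀ hy0] at hn
      linarith [hn.1]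
    rw [abs_of_nonneg h10, sub_lt_iff_lt_add, div_lt_iff₀ hn1]
    have h11 : z < (n + 1 + 1) * y := (div_lt_iff₀ hy0).1 hn.2
    have h12 : y / r + 2 < z / y := by
      rw [lt_div_iff₀ hy0]
      linarith
    have h13 : y / r < n := by linarith [hn.2]
    have h14 : y < n * r := (div_lt_iff₀ hr).1 h13
    nlinarith
  have h15 := hmul n _ h9
  rwa [mul_div_cancel₀ _ hn1.ne'] at h15

/-- The equivalence relation of a partition (or of any family of sets). -/
def rel {ι : Type u} (A : ι → Set ℝ) : Set (ℝ × ℝ) := {p | ∃ i, p.1 ∈ A i ∧ p.2 ∈ A i}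

lemma half {ι : Type u} (A : ι → Set ℝ) (hadd : ∀ i, ∀ a ∈ A i, ∀ b ∈ A i, a + b ∈ A i)
    (hdisj : ∀ i j, i ≠ j → Disjoint (A i) (A j)) (hU : ⋃ i, A i = Set.univ)
    (hE : AnalyticSet (rel A)) :
    (∃ i, Ioi 0 ⊆ A i) ∨ ∃ h : (ℕ → Bool) → ℝ, Continuous h ∧
      ∀ b b', b ≠ b' → ∀ i, ¬ (h b ∈ A i ∧ h b' ∈ A i) := by
  have huniq : ∀ {x i j}, x ∈ A i → x ∈ A j → i = j := by
    intro x i j h1 h2
    by_contra hne
    exact Set.disjoint_left.1 (hdisj i j hne) h1 h2
  by_cases hm : ∀ x : ℝ, IsMeagre {y : ℝ | (|x|, |y|) ∈ rel A}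
  · right
    have hR : AnalyticSet {p : ℝ × ℝ | (|p.1|, |p.2|) ∈ rel A} :=
      hE.preimage (f := fun p : ℝ × ℝ => (|p.1|, |p.2|))
        (continuous_fst.abs.prodMk continuous_snd.abs)
    have hRm : IsMeagre {p : ℝ × ℝ | (|p.1|, |p.2|) ∈ rel A} := by
      rw [AnalyticSet] at hR
      rcases hR with h | ⟨f, hf, hfr⟩
      · rw [h]; exact IsMeagre.empty
      · rw [← hfr]
        apply meagre_of_sections hf
        intro x
        rw [hfr]
        exact hm x
    obtain ⟨S, hSo, hSd, hSc, hSM⟩ := mem_residual_iff.1 hRm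
    obtain ⟨W, hW⟩ := (hSc.insert Set.univ).exists_eq_range ⟨Set.univ, mem_insert _ _⟩
    have hWS : ∀ n, W n = Set.univ ∨ W n ∈ S := by
      intro n
      have : W n ∈ insert Set.univ S := by rw [hW]; exact ⟨n, rfl⟩
      exact this
    obtain ⟨h, hh1, hh2⟩ := Pool.Agent.H565R2.FO2.mycielski' W (fun n => by
      rcases hWS n with h | h
      · rw [h]; exact isOpen_univ
      · exact hSo _ h) (fun n => by
      rcases hWS n with h | h
      · rw [h]; exact dense_univ
      · exact hSd _ h)
    refine ⟨fun b => |h b|, hh1.abs, fun b b' hbb i hi => ?_⟩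
    refine hSM (a := (h b, h b')) (fun t ht => ?_) ⟨i, hi⟩
    have : t ∈ range W := by rw [← hW]; exact mem_insert_of_mem _ ht
    obtain ⟨n, rfl⟩ := this
    exact hh2 b b' hbb n
  · left
    push Not at hm
    obtain ⟨x, hx⟩ := hm
    obtain ⟨i, hi⟩ : ∃ i, |x| ∈ A i := mem_iUnion.1 (hU ▸ mem_univ _)
    have hsec : ∀ y, (|x|, y) ∈ rel A ↔ y ∈ A i := by
      intro y
      constructor
      · rintro ⟨j, h1, h2⟩
        rw [huniq hi h1]
        exact h2
      · intro h
        exact ⟨i, hi, h⟩
    have hAi : AnalyticSet (A i) := by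
      have h1 : A i = (fun y => (|x|, y)) ⁻¹' rel A := by
        ext y
        exact (hsec y).symm
      rw [h1]
      exact hE.preimage (by fun_prop)
    have hAp : AnalyticSet (A i ∩ Ioi 0) :=
      inter_analytic hAi measurableSet_Ioi.analyticSet
    have hnm : ¬ IsMeagre (A i ∩ Ioi 0) := by
      intro hmA
      apply hx
      have h1 : IsMeagre ((fun t : ℝ => -t) ⁻¹' (A i ∩ Ioi 0)) :=
        hmA.preimage_of_isOpenMap continuous_neg (Homeomorph.neg ℝ).isOpenMap
      have h2 : IsMeagre ({0} : Set ℝ) := by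
        apply IsNowhereDense.isMeagre
        rw [isClosed_singleton.isNowhereDense_iff]
        exact interior_singleton 0
      refine IsMeagre.mono ?_ ((hmA.union h1).union h2)
      intro y hy
      have hy' : |y| ∈ A i := (hsec _).1 hy
      rcases lt_trichotomy y 0 with h | h | h
      · refine Or.inl (Or.inr ⟨?_, ?_⟩)
        · rw [abs_of_neg h] at hy'
          exact hy'
        · exact neg_pos.2 h
      · exact Or.inr h
      · refine Or.inl (Or.inl ⟨?_, h⟩)
        rwa [abs_of_pos h] at hy'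
    obtain ⟨c, hc⟩ := exists_Ioi hAp (fun a ha b hb =>
      ⟨hadd i a ha.1 b hb.1, add_pos (show 0 < a from ha.2) (show 0 < b from hb.2)⟩)
      inter_subset_right hnm
    refine ⟨i, fun y hy => ?_⟩
    have hy : 0 < y := hy
    obtain ⟨j, hj⟩ : ∃ j, y ∈ A j := mem_iUnion.1 (hU ▸ mem_univ _)
    have hmul : ∀ n : ℕ, (n + 1 : ℝ) * y ∈ A j := by
      intro n
      induction n with
      | zero => simpa using hj
      | succ n ih =>
        have := hadd j _ ih _ hj
        convert this using 1
        push_cast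
        ring
    obtain ⟨n, hn⟩ := exists_nat_gt (c / y)
    have h1 : c < (n + 1 : ℝ) * y := by
      rw [div_lt_iff₀ hy] at hn
      nlinarith
    rw [huniq (hc h1).1 (hmul n)]
    exact hj

/-- Let `A i` (`i ∈ ι`) be a partition of `ℝ` into nonempty pairwise disjoint sets closed under
addition such that the equivalence relation of the partition is an analytic subset of the plane.
Then either there are at most three pieces, or there is a perfect set of elements of different
pieces -- so that there are exactly `𝔠` pieces. In particular, if `ℵ₁ < 𝔠` (for example `𝔠 = ℵ₂`)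
then the number of pieces is not `ℵ₁`. -/
theorem result {ι : Type u} (A : ι → Set ℝ) (hne : ∀ i, (A i).Nonempty)
    (hadd : ∀ i, ∀ a ∈ A i, ∀ b ∈ A i, a + b ∈ A i)
    (hdisj : ∀ i j, i ≠ j → Disjoint (A i) (A j)) (hU : ⋃ i, A i = Set.univ)
    (hE : AnalyticSet {p : ℝ × ℝ | ∃ i, p.1 ∈ A i ∧ p.2 ∈ A i}) :
    (#ι ≤ 3 ∨ (#ι = 𝔠 ∧ ∃ h : (ℕ → Bool) → ℝ, Continuous h ∧
      ∀ b b', b ≠ b' → ∀ i, ¬ (h b ∈ A i ∧ h b' ∈ A i))) ∧
    ((ℵ₁ : Cardinal.{u}) < 𝔠 → #ι ≠ ℵ₁) := by
  have huniq : ∀ {x i j}, x ∈ A i → x ∈ A j → i = j := by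
    intro x i j h1 h2
    by_contra hne
    exact Set.disjoint_left.1 (hdisj i j hne) h1 h2
  have key : #ι ≤ 3 ∨ (#ι = 𝔠 ∧ ∃ h : (ℕ → Bool) → ℝ, Continuous h ∧
      ∀ b b', b ≠ b' → ∀ i, ¬ (h b ∈ A i ∧ h b' ∈ A i)) := by
    have hcont : (∃ h : (ℕ → Bool) → ℝ, Continuous h ∧
        ∀ b b', b ≠ b' → ∀ i, ¬ (h b ∈ A i ∧ h b' ∈ A i)) → #ι = 𝔠 := by
      rintro ⟨h, -, hh⟩
      apply le_antisymm
      · choose p hp using hne
        have hinj : Function.Injective p := fun i j hij => huniq (hp i) (hij ▸ hp j)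
        have h1 := Cardinal.lift_mk_le_lift_mk_of_injective hinj
        rw [Cardinal.mk_real, Cardinal.lift_continuum, Cardinal.lift_uzero] at h1
        exact h1
      · have hex : ∀ b, ∃ i, h b ∈ A i := fun b => mem_iUnion.1 (hU ▸ mem_univ _)
        choose f hf using hex
        have hinj : Function.Injective f := by
          intro b b' hbb
          by_contra hne
          exact hh b b' hne (f b) ⟨hf b, hbb ▸ hf b'⟩
        have h1 := Cardinal.lift_mk_le_lift_mk_of_injective hinj
        have h2 : #(ℕ → Bool) = 𝔠 := by simp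
        rw [h2, Cardinal.lift_continuum, Cardinal.lift_uzero] at h1
        exact h1
    rcases half A hadd hdisj hU hE with ⟨i, hi⟩ | h
    swap
    · exact Or.inr ⟨hcont h, h⟩
    have hE' : AnalyticSet (rel fun i => (fun t : ℝ => -t) ⁻¹' A i) :=
      hE.preimage (f := fun p : ℝ × ℝ => (-p.1, -p.2)) (by fun_prop)
    rcases half (fun i => (fun t : ℝ => -t) ⁻¹' A i) (fun i a ha b hb => by
        show -(a + b) ∈ A i
        rw [neg_add]
        exact hadd i _ ha _ hb) (fun i j hij => (hdisj i j hij).preimage _) (by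
        rw [← preimage_iUnion, hU, preimage_univ]) hE' with ⟨j, hj⟩ | ⟨h, hh1, hh2⟩
    swap
    · have h2 : ∃ h : (ℕ → Bool) → ℝ, Continuous h ∧
          ∀ b b', b ≠ b' → ∀ i, ¬ (h b ∈ A i ∧ h b' ∈ A i) := ⟨fun b => -h b, hh1.neg, hh2⟩
      exact Or.inr ⟨hcont h2, h2⟩
    left
    obtain ⟨k, hk⟩ : ∃ k, (0 : ℝ) ∈ A k := mem_iUnion.1 (hU ▸ mem_univ _)
    let g : Fin 3 → ι := ![i, j, k]
    have hg : Function.Surjective g := by
      intro l
      obtain ⟨x, hx⟩ := hne l
      rcases lt_trichotomy x 0 with h | h | h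
      · refine ⟨1, ?_⟩
        have h1 : x ∈ A j := by
          have := hj (show -x ∈ Ioi (0 : ℝ) from neg_pos.2 h)
          simpa using this
        exact huniq h1 hx
      · refine ⟨2, ?_⟩
        exact huniq hk (h ▸ hx)
      · exact ⟨0, huniq (hi h) hx⟩
    have h1 := Cardinal.mk_le_of_surjective (α := ULift.{u} (Fin 3)) (f := fun x => g x.down)
      (hg.comp ULift.down_surjective)
    simpa using h1
  refine ⟨key, fun hc h => ?_⟩
  rcases key with h1 | ⟨h1, -⟩
  · rw [h] at h1
    exact absurd (h1.trans (Cardinal.ofNat_le_aleph0 (n := 3)))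
      (not_le.2 aleph0_lt_aleph_one)
  · rw [h] at h1
    exact hc.ne h1

end Pool.Agent.Results.MP_be984c_lc.AnalyticSemigroupPartition
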